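import Pool.Agent.TH630.Fill.Defs

/-!
# Stratified nilpotent Lie groups and growth of filling functions: definitions

`Pool.Agent.TH630.NilLaw n` is a connected, simply connected nilpotent Lie group of dimension `n` in
triangular polynomial coordinates.
-/

open MeasureTheory
open scoped ENNReal NNReal Topology

namespace Pool.Agent.Y490.Fill

open Pool.Agent.TH630

variable {n : ℕ}

/-- `FV^{k+1} ≼ r ^ p`: there is `C > 0` with
`FV^{k+1} (r) ≤ C (C r + C) ^ p + C r + C` for all `r ≥ 0`. -/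
def FVle (G : NilLaw n) (B : Matrix (Fin n) (Fin n) ℝ) (k : ℕ) (p : ℝ) : Prop :=
  ∃ C : ℝ, 0 < C ∧ ∀ r : ℝ, 0 ≤ r →
    G.FV B k r ≤ ENNReal.ofReal (C * (C * r + C) ^ p + C * r + C)

/-- The filling function in dimension `k` is super-Euclidean: not `FV^{k+1} ≼ r ^ ((k+1)/k)`. -/
def SuperEuclidean (G : NilLaw n) (B : Matrix (Fin n) (Fin n) ℝ) (k : ℕ) : Prop :=
  ¬ FVle G B k (((k : ℝ) + 1) / k)

/-- The Lie bracket of the Lie algebra of the group (the tangent space at the identity `0`): the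
second derivative `∂²/∂s∂t` at `s = t = 0` of `(s v) (t w) - (t w) (s v)`. -/
noncomputable def lieBr (G : NilLaw n) (v w : Fin n → ℝ) : Fin n → ℝ :=
  deriv (fun s : ℝ => deriv (fun t : ℝ =>
    G.mul (s • v) (t • w) - G.mul (t • w) (s • v)) 0) 0

/-- A stratification of step `s` of the Lie algebra of the group: subspaces `V 1, ..., V s` of which
the Lie algebra is the direct sum, with `[V 1, V i] = V (i + 1)` for `1 ≤ i < s`, `[V 1, V s] = 0`
and `V s ≠ 0`. -/
structure IsStratification (G : NilLaw n) (s : ℕ) (V : ℕ → Submodule ℝ (Fin n → ℝ)) : Prop where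
  direct : ∀ x : Fin n → ℝ, ∃! y : Fin s → Fin n → ℝ, (∀ i : Fin s, y i ∈ V (i + 1)) ∧ ∑ i, y i = x
  span_lieBr : ∀ i, 1 ≤ i → i < s →
    Submodule.span ℝ {z | ∃ x ∈ V 1, ∃ y ∈ V i, lieBr G x y = z} = V (i + 1)
  lieBr_last : ∀ x ∈ V 1, ∀ y ∈ V s, lieBr G x y = 0
  last : V s ≠ ⊥

end Pool.Agent.Y490.Fill
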