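import Pool.Agent.TH630.Fill.Final
import Pool.Agent.Y490.Fill.Defs

/-!
# Filling functions of nilpotent Lie groups: a power gap

If `FV^{k+1}` of a non-abelian simply connected nilpotent Lie group of dimension `n` grows at most
like `r ^ (a k)` for each `k` from `1` to `n - 1`, where `a k ≥ 1`, then the product of the `a k` is
at least `n + 1`.
-/

open MeasureTheory MvPolynomial
open scoped ENNReal NNReal Topology

namespace Pool.Agent.Y490.Fill

open Pool.Agent.TH630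

variable {n k : ℕ}

/-- The exponents of the masses of the chains: `0, 1, a 1, a 1 * a 2, …`. -/
noncomputable def expo (a : ℕ → ℝ) : ℕ → ℝ
  | 0 => 0
  | 1 => 1
  | j + 2 => a (j + 1) * expo a (j + 1)

theorem expo_one_le {a : ℕ → ℝ} (ha : ∀ j, 1 ≤ a j) : ∀ j, 1 ≤ expo a (j + 1)
  | 0 => le_rfl
  | j + 1 => by
    have h1 := expo_one_le ha j
    have h2 := ha (j + 1)
    change 1 ≤ a (j + 1) * expo a (j + 1)
    nlinarith

theorem expo_nonneg {a : ℕ → ℝ} (ha : ∀ j, 1 ≤ a j) : ∀ j, 0 ≤ expo a j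
  | 0 => le_rfl
  | j + 1 => le_trans zero_le_one (expo_one_le ha j)

theorem expo_le_succ {a : ℕ → ℝ} (ha : ∀ j, 1 ≤ a j) : ∀ j, expo a j ≤ expo a (j + 1)
  | 0 => zero_le_one
  | j + 1 => by
    have h1 := expo_one_le ha j
    have h2 := ha (j + 1)
    change expo a (j + 1) ≤ a (j + 1) * expo a (j + 1)
    nlinarith

theorem expo_mono {a : ℕ → ℝ} (ha : ∀ j, 1 ≤ a j) : Monotone (expo a) :=
  monotone_nat_of_le_succ (expo_le_succ ha)

theorem expo_eq_prod (a : ℕ → ℝ) : ∀ m, expo a (m + 1) = ∏ j ∈ Finset.Icc 1 m, a j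
  | 0 => by simp [expo]
  | m + 1 => by
    rw [Finset.prod_Icc_succ_top (by omega), ← expo_eq_prod a m]
    change a (m + 1) * expo a (m + 1) = _
    ring

theorem exists_filling (G : NilLaw n) (B : Matrix (Fin n) (Fin n) ℝ) {j : ℕ} {p : ℝ} (hp : 1 ≤ p)
    (hFV : FVle G B (j + 1) p) (e : ℝ) (he : 0 ≤ e) (A : ℝ) (hA : 0 ≤ A) :
    ∃ A' : ℝ, 0 < A' ∧ ∀ ρ : ℝ, 1 ≤ ρ → ∀ c : Chain n (j + 1), bdry c = 0 →
      G.mass B c ≤ ENNReal.ofReal (A * ρ ^ e) →
      ∃ b : Chain n (j + 2), bdry b = c ∧ G.mass B b ≤ ENNReal.ofReal (A' * ρ ^ (p * e)) := by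
  obtain ⟨C, hC0, hC⟩ := hFV
  refine ⟨C * (C * A + C) ^ p + C * A + C + 1, by positivity, fun ρ hρ c hc hm => ?_⟩
  have hρ0 : 0 ≤ ρ := by linarith
  have hρe : 1 ≤ ρ ^ e := Real.one_le_rpow hρ he
  have hρpe : ρ ^ e ≤ ρ ^ (p * e) := Real.rpow_le_rpow_of_exponent_le hρ (by nlinarith)
  have h1 : (⨅ (b : Chain n (j + 1 + 1)) (_ : bdry b = c), G.mass B b) ≤
      G.FV B (j + 1) (A * ρ ^ e) :=
    le_iSup_of_le c (le_iSup_of_le (show IsCycle c from hc) (le_iSup_of_le hm le_rfl))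
  have h2 := h1.trans (hC (A * ρ ^ e) (by positivity))
  have h3 : (C * (A * ρ ^ e) + C) ^ p ≤ (C * A + C) ^ p * ρ ^ (p * e) := by
    have e1 : C * (A * ρ ^ e) + C ≤ (C * A + C) * ρ ^ e := by nlinarith
    calc (C * (A * ρ ^ e) + C) ^ p ≤ ((C * A + C) * ρ ^ e) ^ p :=
          Real.rpow_le_rpow (by positivity) e1 (by linarith)
      _ = (C * A + C) ^ p * ρ ^ (p * e) := by
          rw [Real.mul_rpow (by positivity) (by positivity), ← Real.rpow_mul hρ0, mul_comm e p]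
  have h4 : C * (C * (A * ρ ^ e) + C) ^ p + C * (A * ρ ^ e) + C <
      (C * (C * A + C) ^ p + C * A + C + 1) * ρ ^ (p * e) := by
    have h6 : 1 ≤ ρ ^ (p * e) := hρe.trans hρpe
    have h7 : C * (A * ρ ^ e) ≤ C * A * ρ ^ (p * e) := by
      rw [← _root_.mul_assoc]
      gcongr
    have h8 : C * (C * (A * ρ ^ e) + C) ^ p ≤ C * ((C * A + C) ^ p * ρ ^ (p * e)) := by gcongr
    nlinarith
  have h5 : (⨅ (b : Chain n (j + 1 + 1)) (_ : bdry b = c), G.mass B b) <
      ENNReal.ofReal ((C * (C * A + C) ^ p + C * A + C + 1) * ρ ^ (p * e)) := by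
    refine lt_of_le_of_lt h2 ?_
    rw [ENNReal.ofReal_lt_ofReal_iff (by positivity)]
    exact h4
  simp only [iInf_lt_iff] at h5
  obtain ⟨b, hb, hb2⟩ := h5
  exact ⟨b, hb, hb2.le⟩

/-- Chains filling near tuples, with volume bounds of the right order. -/
theorem exists_Phi (G : NilLaw n) (B : Matrix (Fin n) (Fin n) ℝ) {a : ℕ → ℝ} (ha : ∀ j, 1 ≤ a j)
    (hFV : ∀ j, j + 2 ≤ n → FVle G B (j + 1) (a (j + 1))) (K : ℝ) (hK : 0 ≤ K)
    (k : ℕ) (hk : k ≤ n) : ∃ A : ℝ, 0 < A ∧ ∀ ρ : ℝ, 1 ≤ ρ →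
      ∃ Φ : ∀ j, (Fin (j + 1) → Fin n → ℝ) → Chain n j,
        (∀ g, Φ 0 g = Finsupp.single (ptSimplex (g 0)) 1) ∧
        (∀ j < k, ∀ g, G.near (K * ρ) g → bdry (Φ (j + 1) g) = altSum (Φ j) g) ∧
        (∀ j ≤ k, ∀ g, G.near (K * ρ) g →
          G.mass B (Φ j g) ≤ ENNReal.ofReal (A * ρ ^ (expo a j))) := by
  classical
  induction k with
  | zero =>
    obtain ⟨A, hA, hA'⟩ := G.exists_phi_mass_zero B
    refine ⟨A, hA, fun ρ hρ => ⟨fun j g => Finsupp.single (ptSimplex (g 0)) 1, fun g => rfl,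
      fun j hj => absurd hj (by omega), fun j hj g _ => ?_⟩⟩
    obtain rfl : j = 0 := by omega
    simpa [expo] using hA' (g 0)
  | succ k ih =>
    obtain ⟨A, hA, hΦ⟩ := ih (by omega)
    have hstep : ∃ A' : ℝ, 0 < A' ∧ ∀ ρ : ℝ, 1 ≤ ρ →
        ∀ Φ : ∀ j, (Fin (j + 1) → Fin n → ℝ) → Chain n j,
        (∀ g, Φ 0 g = Finsupp.single (ptSimplex (g 0)) 1) →
        (∀ j < k, ∀ g, G.near (K * ρ) g → bdry (Φ (j + 1) g) = altSum (Φ j) g) →
        (∀ j ≤ k, ∀ g, G.near (K * ρ) g →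
          G.mass B (Φ j g) ≤ ENNReal.ofReal (A * ρ ^ (expo a j))) →
        ∀ g : Fin (k + 2) → Fin n → ℝ, G.near (K * ρ) g → ∃ b : Chain n (k + 1),
          bdry b = altSum (Φ k) g ∧
            G.mass B b ≤ ENNReal.ofReal (A' * ρ ^ (expo a (k + 1))) := by
      rcases k with _ | k
      · obtain ⟨A', hA', h⟩ := G.exists_edge B K hK
        refine ⟨A', hA', fun ρ hρ Φ h0 _ _ g hg => ?_⟩
        obtain ⟨b, hb1, hb2⟩ := h ρ hρ (g 0) (g 1) (hg 0 1)
        refine ⟨b, ?_, by simpa [expo] using hb2⟩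
        rw [hb1, NilLaw.altSum_pair, h0, h0]
      · obtain ⟨A', hA', h⟩ := exists_filling G B (ha (k + 1)) (hFV k (by omega))
          (expo a (k + 1)) (expo_nonneg ha _) ((k + 1 + 1 + 1) * A) (by positivity)
        refine ⟨A', hA', fun ρ hρ Φ h0 h1 h2 g hg => ?_⟩
        have h' := h ρ hρ (altSum (Φ (k + 1)) g) (by
          rw [bdry_altSum, ← altSum_altSum (Φ k) g]
          apply altSum_congr
          intro i
          exact h1 k (by omega) _ (G.near_face hg i)) (by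
          have := G.mass_altSum_le B (Φ (k + 1)) g (A * ρ ^ (expo a (k + 1)))
            (fun i => h2 (k + 1) le_rfl _ (G.near_face hg i))
          refine this.trans (le_of_eq ?_)
          push_cast
          congr 1
          ring)
        exact h'
    obtain ⟨A', hA', hstep⟩ := hstep
    refine ⟨max A A', lt_max_of_lt_left hA, fun ρ hρ => ?_⟩
    have hρ0 : 0 ≤ ρ := by linarith
    obtain ⟨Φ, h0, h1, h2⟩ := hΦ ρ hρ
    have hst := hstep ρ hρ Φ h0 h1 h2
    set new : (Fin (k + 1 + 1) → Fin n → ℝ) → Chain n (k + 1) := fun g =>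
      if h : G.near (K * ρ) g then (hst g h).choose else 0 with hnew
    have hn1 : ∀ g, G.near (K * ρ) g → bdry (new g) = altSum (Φ k) g := by
      intro g hg
      simp only [hnew, dif_pos hg]
      exact (hst g hg).choose_spec.1
    have hn2 : ∀ g, G.near (K * ρ) g →
        G.mass B (new g) ≤ ENNReal.ofReal (A' * ρ ^ (expo a (k + 1))) := by
      intro g hg
      simp only [hnew, dif_pos hg]
      exact (hst g hg).choose_spec.2
    refine ⟨Function.update Φ (k + 1) new, fun g => ?_, fun j hj g hg => ?_, fun j hj g hg => ?_⟩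
    · rw [Function.update_of_ne (by omega)]
      exact h0 g
    · rcases Nat.lt_or_ge j k with hjk | hjk
      · rw [Function.update_of_ne (by omega), Function.update_of_ne (by omega)]
        exact h1 j hjk g hg
      · obtain rfl : j = k := by omega
        rw [Function.update_self, Function.update_of_ne (by omega)]
        exact hn1 g hg
    · rcases Nat.lt_or_ge j (k + 1) with hjk | hjk
      · rw [Function.update_of_ne (by omega)]
        refine (h2 j (by omega) g hg).trans (ENNReal.ofReal_le_ofReal ?_)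
        gcongr
        exact le_max_left _ _
      · obtain rfl : j = k + 1 := by omega
        rw [Function.update_self]
        refine (hn2 g hg).trans (ENNReal.ofReal_le_ofReal ?_)
        gcongr
        exact le_max_right _ _

theorem exists_H (G : NilLaw n) (B : Matrix (Fin n) (Fin n) ℝ) {a : ℕ → ℝ} (ha : ∀ j, 1 ≤ a j)
    (hFV : ∀ j, j + 2 ≤ n → FVle G B (j + 1) (a (j + 1))) {L A : ℝ} (hA : 0 ≤ A)
    (Φ : ∀ j, (Fin (j + 1) → Fin n → ℝ) → Chain n j)
    (h0 : ∀ g, Φ 0 g = Finsupp.single (ptSimplex (g 0)) 1)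
    (h1 : ∀ j < n, ∀ g, G.near L g → bdry (Φ (j + 1) g) = altSum (Φ j) g)
    (h2 : ∀ j ≤ n, ∀ g, G.near L g → G.mass B (Φ j g) ≤ ENNReal.ofReal A)
    (h3 : ∀ j ≤ n, ∀ g : Fin (j + 1) → Fin n → ℝ, G.near L g →
      G.mass B (G.sC g) ≤ ENNReal.ofReal A)
    (k : ℕ) (hk : k + 1 ≤ n) : ∃ C : ℝ, 0 < C ∧
      ∃ H : ∀ j, (Fin (j + 1) → Fin n → ℝ) → Chain n (j + 1), (∀ g, H 0 g = 0) ∧
        (∀ j < k, ∀ g, G.near L g →
          bdry (H (j + 1) g) = Φ (j + 1) g - G.sC g - altSum (H j) g) ∧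
        (∀ j ≤ k, ∀ g, G.near L g → G.mass B (H j g) ≤ ENNReal.ofReal C) := by
  classical
  induction k with
  | zero =>
    refine ⟨1, one_pos, fun j g => 0, fun g => rfl, fun j hj => absurd hj (by omega),
      fun j hj g _ => ?_⟩
    rw [G.mass_zero]
    exact bot_le
  | succ k ih =>
    obtain ⟨C, hC, H, hH0, hH1, hH2⟩ := ih (by omega)
    obtain ⟨A', hA', hfill⟩ := exists_filling G B (ha (k + 1)) (hFV k (by omega)) 0 le_rfl
      (A + A + (k + 1 + 1) * C) (by positivity)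
    have hst : ∀ g : Fin (k + 1 + 1) → Fin n → ℝ, G.near L g → ∃ b : Chain n (k + 2),
        bdry b = Φ (k + 1) g - G.sC g - altSum (H k) g ∧ G.mass B b ≤ ENNReal.ofReal A' := by
      intro g hg
      obtain ⟨b, hb1, hb2⟩ := hfill 1 le_rfl (Φ (k + 1) g - G.sC g - altSum (H k) g)
        (G.cycle_H Φ H k h0 (h1 k (by omega)) hH0 hH1 g hg) (by
          rw [Real.one_rpow, mul_one, ENNReal.ofReal_add (by positivity) (by positivity),
            ENNReal.ofReal_add hA hA]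
          refine (G.mass_sub_le B _ _).trans (add_le_add ((G.mass_sub_le B _ _).trans
            (add_le_add (h2 _ (by omega) g hg) (h3 _ (by omega) g hg))) ?_)
          have := G.mass_altSum_le B (H k) g C (fun i => hH2 k le_rfl _ (G.near_face hg i))
          refine this.trans (le_of_eq ?_)
          push_cast
          rfl)
      exact ⟨b, hb1, by simpa using hb2⟩
    set new : (Fin (k + 1 + 1) → Fin n → ℝ) → Chain n (k + 1 + 1) := fun g =>
      if h : G.near L g then (hst g h).choose else 0 with hnew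
    have hn1 : ∀ g, G.near L g → bdry (new g) = Φ (k + 1) g - G.sC g - altSum (H k) g := by
      intro g hg
      simp only [hnew, dif_pos hg]
      exact (hst g hg).choose_spec.1
    have hn2 : ∀ g, G.near L g → G.mass B (new g) ≤ ENNReal.ofReal A' := by
      intro g hg
      simp only [hnew, dif_pos hg]
      exact (hst g hg).choose_spec.2
    refine ⟨max C A', lt_max_of_lt_left hC, Function.update H (k + 1) new, fun g => ?_,
      fun j hj g hg => ?_, fun j hj g hg => ?_⟩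
    · rw [Function.update_of_ne (by omega)]
      exact hH0 g
    · rcases Nat.lt_or_ge j k with hjk | hjk
      · rw [Function.update_of_ne (by omega), Function.update_of_ne (by omega)]
        exact hH1 j hjk g hg
      · obtain rfl : j = k := by omega
        rw [Function.update_self, Function.update_of_ne (by omega)]
        exact hn1 g hg
    · rcases Nat.lt_or_ge j (k + 1) with hjk | hjk
      · rw [Function.update_of_ne (by omega)]
        exact (hH2 j (by omega) g hg).trans (ENNReal.ofReal_le_ofReal (le_max_left _ _))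
      · obtain rfl : j = k + 1 := by omega
        rw [Function.update_self]
        exact (hn2 g hg).trans (ENNReal.ofReal_le_ofReal (le_max_right _ _))

theorem exists_cochains {m : ℕ} (G : NilLaw (m + 1))
    (B : Matrix (Fin (m + 1)) (Fin (m + 1)) ℝ) (hB : B.PosDef) {a : ℕ → ℝ} (ha : ∀ j, 1 ≤ a j)
    (hFV : ∀ j, j + 2 ≤ m + 1 → FVle G B (j + 1) (a (j + 1))) (K : ℝ) (hK : 0 ≤ K) :
    ∃ A : ℝ, 0 < A ∧ ∀ ρ : ℝ, 1 ≤ ρ → ∃ C : ℝ, 0 < C ∧
      ∃ (F : (Fin (m + 2) → Fin (m + 1) → ℝ) → ℝ) (h : (Fin (m + 1) → Fin (m + 1) → ℝ) → ℝ),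
        (∀ g, G.near (K * ρ) g → |F g| ≤ A * ρ ^ (expo a (m + 1))) ∧
        (∀ g, G.near (K * ρ) g → |h g| ≤ C) ∧
        ∀ g, G.near (K * ρ) g →
          F g - sgnVol (G.barSimplex g) =
            ∑ i : Fin (m + 2), (-1 : ℝ) ^ (i : ℕ) * h (fun j => g (i.succAbove j)) := by
  obtain ⟨A, hA, hΦ⟩ := exists_Phi G B ha hFV K hK (m + 1) le_rfl
  set b : ℝ := (√ B.det)⁻¹ with hb
  have hb0 : 0 < b := inv_pos.2 (Real.sqrt_pos.2 hB.det_pos)
  have hbd : ∀ (c : Chain (m + 1) (m + 1)) (M : ℝ), 0 ≤ M →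
      G.mass B c ≤ ENNReal.ofReal M → |sgnVolChain c| ≤ b * M := by
    intro c M hM hc
    have h1 := G.ofReal_abs_sgnVolChain_le B hB c
    have h2 := h1.trans (mul_le_mul_right hc _)
    rw [← ENNReal.ofReal_mul hb0.le] at h2
    exact (ENNReal.ofReal_le_ofReal_iff (by positivity)).1 h2
  refine ⟨b * A, by positivity, fun ρ hρ => ?_⟩
  have hρ0 : 0 ≤ ρ := by linarith
  obtain ⟨Φ, h0, h1, h2⟩ := hΦ ρ hρ
  -- mass bounds of straight simplices
  have hS : ∃ A1 : ℝ, 0 < A1 ∧ ∀ j ≤ m + 1, ∀ g : Fin (j + 1) → Fin (m + 1) → ℝ,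
      G.near (K * ρ) g → G.mass B (G.sC g) ≤ ENNReal.ofReal A1 := by
    choose C hC0 hC using fun j => G.mass_sC_near B (K * ρ) j
    refine ⟨∑ j ∈ Finset.range (m + 2), C j, ?_, fun j hj g hg => ?_⟩
    · apply Finset.sum_pos (fun j _ => hC0 j)
      simp
    · refine (hC j g hg).trans (ENNReal.ofReal_le_ofReal ?_)
      exact Finset.single_le_sum (f := C) (fun i _ => (hC0 i).le)
        (Finset.mem_range.2 (by omega))
  obtain ⟨A1, hA1, hS⟩ := hS
  obtain ⟨C, hC, H, hH0, hH1, hH2⟩ := exists_H G B ha hFV (L := K * ρ)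
    (A := max (A * ρ ^ (expo a (m + 1))) A1)
    (by positivity) Φ h0 h1
    (fun j hj g hg => (h2 j hj g hg).trans (ENNReal.ofReal_le_ofReal (le_max_of_le_left (by
      have : ρ ^ (expo a j) ≤ ρ ^ (expo a (m + 1)) :=
        Real.rpow_le_rpow_of_exponent_le hρ (expo_mono ha hj)
      gcongr))))
    (fun j hj g hg => (hS j hj g hg).trans (ENNReal.ofReal_le_ofReal (le_max_right _ _)))
    m le_rfl
  refine ⟨b * C, by positivity, fun g => sgnVolChain (Φ (m + 1) g),
    fun g => sgnVolChain (H m g), fun g hg => ?_, fun g hg => ?_, fun g hg => ?_⟩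
  · have := hbd _ _ (by positivity) (h2 (m + 1) le_rfl g hg)
    linarith
  · exact hbd _ _ hC.le (hH2 m le_rfl g hg)
  · have hcyc := G.cycle_H Φ H m h0 (h1 m (by omega)) hH0 hH1 g hg
    have hz := sgnVolChain_eq_zero (m := m)
      (fun f g hf hg S hS hfg => integral_det_fderiv_sub (by omega) hf hg hS hfg) _ hcyc
    rw [sgnVolChain_sub, sgnVolChain_sub, NilLaw.sC, sgnVolChain_single, altSum,
      sgnVolChain_sum] at hz
    simp only [sgnVolChain_smul] at hz
    push_cast at hz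
    linarith

/-- **Power gap**: if `FV^{k+1} ≼ r ^ (a k)` for all `k` from `1` to `n - 1`, then the product of the
exponents is at least `n + 1`. -/
theorem gap (G : NilLaw n) (hG : ∃ x y, G.mul x y ≠ G.mul y x)
    (B : Matrix (Fin n) (Fin n) ℝ) (hB : B.PosDef) {a : ℕ → ℝ} (ha : ∀ j, 1 ≤ a j)
    (hprod : ∏ j ∈ Finset.Icc 1 (n - 1), a j < n + 1) :
    ∃ k, 1 ≤ k ∧ k + 1 ≤ n ∧ ¬ FVle G B k (a k) := by
  by_contra hcon
  push Not at hcon
  obtain ⟨m, rfl⟩ : ∃ m, n = m + 1 := by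
    rcases n with _ | m
    · obtain ⟨x, y, hxy⟩ := hG
      exact absurd (Subsingleton.elim _ _) hxy
    · exact ⟨m, rfl⟩
  have hFV : ∀ j, j + 2 ≤ m + 1 → FVle G B (j + 1) (a (j + 1)) := fun j hj =>
    hcon (j + 1) (by omega) (by omega)
  have hexp : expo a (m + 1) < m + 2 := by
    rw [expo_eq_prod]
    have e : m + 1 - 1 = m := by omega
    rw [e] at hprod
    push_cast at hprod
    linarith
  obtain ⟨D⟩ := exists_Distorted G hG
  obtain ⟨Q, hQ⟩ := exists_barPoly G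
  have hQ' : IsVolPoly G Q := hQ
  obtain ⟨C2, hC2⟩ := G.exists_frame_bound
  have hC2' : FrameBound G C2 := hC2
  obtain ⟨j0, hj0⟩ : ∃ j0, D.Z j0 ≠ 0 := by
    by_contra h
    push Not at h
    exact D.hZ (funext h)
  obtain ⟨K3, hK30, hK3⟩ := D.nrm_le_of_Nr 3 (by norm_num)
  obtain ⟨K4, hK40, hK4⟩ := D.nrm_le_of_Nr 4 (by norm_num)
  obtain ⟨Cg, d, hpoly⟩ := G.vg_poly
  obtain ⟨N, hN, hdoub⟩ := exists_doubling G.vg G.vg_pos Cg d hpoly (max 1 (2 * K3))
    (le_max_left _ _)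
  obtain ⟨A, hA, hcoch⟩ := exists_cochains G B hB ha hFV K4 hK40.le
  set c0 : ℝ := (m + 1).factorial * (volume (corner (m + 1))).toReal with hc0
  have hc0pos : 0 < c0 := by
    have h1 : 0 < (volume (corner (m + 1))).toReal :=
      ENNReal.toReal_pos (volume_corner_pos _).ne' (volume_corner_lt_top _).ne
    positivity
  set C0 : ℝ := N ^ (m + 2) * C3 m C2 N (D.Z j0) with hC0
  -- a large scale
  have htend : Filter.Tendsto (fun ρ : ℝ => |C0 * A| * ρ ^ (-((m : ℝ) + 2 - expo a (m + 1))))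
      Filter.atTop (𝓝 (|C0 * A| * 0)) :=
    (tendsto_rpow_neg_atTop (by linarith)).const_mul _
  rw [mul_zero] at htend
  obtain ⟨ρ0, hρ0'⟩ := Filter.eventually_atTop.1 (htend.eventually (gt_mem_nhds
    (show (0 : ℝ) < c0 / 2 by positivity)))
  obtain ⟨r, hr, hr2⟩ := hdoub (max 1 ρ0)
  have hr1 : 1 ≤ r := (le_max_left _ _).trans hr
  have hrC : ρ0 ≤ r := (le_max_right _ _).trans hr
  set ρ : ℝ := 2 * r with hρdef
  have hρ1 : 1 ≤ ρ := by linarith
  have hρ0 : 0 < ρ := by linarith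
  set A2 : ℝ := A * ρ ^ (expo a (m + 1) - (m + 1)) with hA2
  have hA20 : 0 < A2 := by positivity
  have hA2e : A2 * ρ ^ (m + 1) = A * ρ ^ (expo a (m + 1)) := by
    rw [hA2, _root_.mul_assoc, ← Real.rpow_natCast ρ (m + 1), ← Real.rpow_add hρ0]
    congr 2
    push_cast
    ring
  have hρC : N ^ (m + 2) * A2 * C3 m C2 N (D.Z j0) / ρ ≤ c0 / 2 := by
    have h1 := (hρ0' ρ (by linarith)).le
    have h2 : N ^ (m + 2) * A2 * C3 m C2 N (D.Z j0) / ρ =
        C0 * A * ρ ^ (-((m : ℝ) + 2 - expo a (m + 1))) := by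
      have e1 : ρ ^ (-((m : ℝ) + 2 - expo a (m + 1))) =
          ρ ^ (expo a (m + 1) - (m + 1)) / ρ := by
        rw [show -((m : ℝ) + 2 - expo a (m + 1)) = (expo a (m + 1) - (m + 1)) - 1 by ring,
          Real.rpow_sub_one hρ0.ne']
      rw [e1, hA2, hC0]
      ring
    rw [h2]
    refine le_trans ?_ h1
    have h3 : 0 ≤ ρ ^ (-((m : ℝ) + 2 - expo a (m + 1))) := by positivity
    exact mul_le_mul_of_nonneg_right (le_abs_self _) h3
  have hdbl : G.vg (K3 * ρ) ≤ N * G.vg (ρ / 2) := by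
    have h1 : ρ / 2 = r := by rw [hρdef]; ring
    rw [h1]
    refine le_trans (G.vg_mono ?_) hr2
    have h2 : 2 * K3 ≤ max 1 (2 * K3) := le_max_right _ _
    rw [hρdef]
    nlinarith
  obtain ⟨C, hC, F, h, hF, hh, hFh⟩ := hcoch ρ hρ1
  obtain ⟨Cc, hCc, hmain⟩ := main_ineq D hQ' hρ0 hN.le (hK4 ρ hρ1) hC2' F h hA20.le hC.le
    (fun g hg => by rw [hA2e]; exact hF g hg) hh hFh j0 hj0 hc0 hρC
  obtain ⟨R, hR, hslow⟩ := exists_slow G.vg G.vg_pos Cg d hpoly (c0 / (4 * Cc)) (by positivity) 1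
  obtain ⟨ι, hι, ⟨P⟩⟩ := exists_Pou D hρ1 hN (hK3 ρ hρ1) hdbl R
  have h1 := hmain R ι hι P
  have h2 : 0 < G.vg R := G.vg_pos R (by linarith)
  have h3 : Cc * G.vg (R + 2) ≤ Cc * ((1 + c0 / (4 * Cc)) * G.vg R) := by gcongr
  have h4 : Cc * ((1 + c0 / (4 * Cc)) * G.vg R) = (Cc + c0 / 4) * G.vg R := by
    field_simp
  rw [h4] at h3
  have h5 := h1.trans h3
  have h6 : Cc + c0 / 2 ≤ Cc + c0 / 4 := le_of_mul_le_mul_right h5 h2
  linarith

end Pool.Agent.Y490.Fill
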