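import Pool.Agent.Y490.Fill.Gap

/-!
# Stratified nilpotent Lie groups: super-Euclidean filling functions and a power gap
-/

open scoped ENNReal NNReal Topology

namespace Pool.Agent.Y490.Fill

open Pool.Agent.TH630

variable {n : ℕ}

theorem lieBr_of_comm {G : NilLaw n} (h : ∀ x y, G.mul x y = G.mul y x) (v w : Fin n → ℝ) :
    lieBr G v w = 0 := by
  simp [lieBr, h]

theorem span_zero_of {X : Set (Fin n → ℝ)} (h : ∀ z ∈ X, z = 0) : Submodule.span ℝ X = ⊥ := by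
  rw [Submodule.span_eq_bot]
  exact h

theorem not_comm {G : NilLaw n} {s : ℕ} (hs : 2 ≤ s) {V : ℕ → Submodule ℝ (Fin n → ℝ)}
    (hV : IsStratification G s V) : ∃ x y, G.mul x y ≠ G.mul y x := by
  by_contra hcon
  push Not at hcon
  obtain ⟨i, rfl⟩ : ∃ i, s = i + 1 := ⟨s - 1, by omega⟩
  apply hV.last
  rw [← hV.span_lieBr i (by omega) (by omega)]
  apply span_zero_of
  rintro z ⟨x, -, y, -, rfl⟩
  exact lieBr_of_comm hcon x y

theorem n_pos {G : NilLaw n} {s : ℕ} {V : ℕ → Submodule ℝ (Fin n → ℝ)}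
    (hV : IsStratification G s V) : 1 ≤ n := by
  by_contra h
  have h0 : n = 0 := by omega
  subst h0
  apply hV.last
  rw [eq_bot_iff]
  intro x _
  rw [Submodule.mem_bot]
  exact Subsingleton.elim _ _

theorem prod_euclid (m : ℕ) : ∏ j ∈ Finset.Icc 1 m, (((j : ℝ) + 1) / j) = m + 1 := by
  induction m with
  | zero => simp
  | succ m ih =>
    rw [Finset.prod_Icc_succ_top (by omega), ih]
    push_cast
    have : (m : ℝ) + 1 ≠ 0 := by positivity
    field_simp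

theorem main {G : NilLaw n} {B : Matrix (Fin n) (Fin n) ℝ} (hB : B.PosDef) {s : ℕ} (hs : 2 ≤ s)
    {V : ℕ → Submodule ℝ (Fin n → ℝ)} (hV : IsStratification G s V) :
    (∃ k, 1 ≤ k ∧ k + 1 ≤ n ∧ SuperEuclidean G B k) ∧
    ∀ a : ℕ → ℝ, (∀ j, 1 ≤ a j) → ∏ j ∈ Finset.Icc 1 (n - 1), a j < n + 1 →
      ∃ k, 1 ≤ k ∧ k + 1 ≤ n ∧ ¬ FVle G B k (a k) := by
  have hG := not_comm hs hV
  have h2 : ∀ a : ℕ → ℝ, (∀ j, 1 ≤ a j) → ∏ j ∈ Finset.Icc 1 (n - 1), a j < n + 1 →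
      ∃ k, 1 ≤ k ∧ k + 1 ≤ n ∧ ¬ FVle G B k (a k) := fun a ha hp => gap G hG B hB ha hp
  refine ⟨?_, h2⟩
  have hn := n_pos hV
  set a : ℕ → ℝ := fun j => if j = 0 then 1 else ((j : ℝ) + 1) / j with ha
  have ha1 : ∀ j, 1 ≤ a j := by
    intro j
    rcases Nat.eq_zero_or_pos j with rfl | hj
    · simp [ha]
    · simp only [ha, if_neg hj.ne']
      rw [le_div_iff₀ (by exact_mod_cast hj)]
      linarith
  have hp : ∏ j ∈ Finset.Icc 1 (n - 1), a j = n := by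
    have e : ∏ j ∈ Finset.Icc 1 (n - 1), a j =
        ∏ j ∈ Finset.Icc 1 (n - 1), (((j : ℝ) + 1) / j) := by
      apply Finset.prod_congr rfl
      intro j hj
      rw [Finset.mem_Icc] at hj
      simp only [ha, if_neg (show j ≠ 0 by omega)]
    rw [e, prod_euclid]
    have : ((n - 1 : ℕ) : ℝ) = n - 1 := by push_cast [Nat.cast_sub hn]; ring
    rw [this]
    ring
  obtain ⟨k, hk1, hk2, hk3⟩ := h2 a ha1 (by rw [hp]; linarith)
  refine ⟨k, hk1, hk2, ?_⟩
  have : a k = ((k : ℝ) + 1) / k := by simp only [ha, if_neg (show k ≠ 0 by omega)]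
  rw [this] at hk3
  exact hk3

end Pool.Agent.Y490.Fill
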